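import Pool.Agent.Helper18.SV.Goals

/-!
Project SV (MP_cb0067_co), packet RED.
-/

set_option autoImplicit false

open Finset
open scoped Pointwise

namespace Pool.Agent.Helper81.SV

open Pool.Agent.Helper95.SF Pool.Agent.Helper18.SV

universe u v w

theorem transfer {G : Type v} {H : Type w} [AddCommGroup G] [DecidableEq G] [AddCommGroup H]
    [DecidableEq H] (f : G →+ H) (s : ℕ) (A : Finset G) (B : Finset H) (hB : IsSumFree s B)
    (h : ∀ a ∈ A, f a ∈ B) : IsSumFree s A := by
  rw [isSumFree_iff] at hB ⊢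
  intro U V hU hV hUs hVs hne he
  refine hB (U.map f) (V.map f) ?_ ?_ ?_ ?_ ?_ ?_
  · intro b hb
    obtain ⟨a, ha, rfl⟩ := Multiset.mem_map.1 hb
    exact h a (hU a ha)
  · intro b hb
    obtain ⟨a, ha, rfl⟩ := Multiset.mem_map.1 hb
    exact h a (hV a ha)
  · rw [Multiset.card_map]
    exact hUs
  · rw [Multiset.card_map]
    exact hVs
  · rw [Multiset.card_map, Multiset.card_map]
    exact hne
  · rw [← map_multiset_sum, ← map_multiset_sum, he]

theorem mem_prog {G : Type v} [AddCommGroup G] [DecidableEq G] {x y : G} {c : ℕ} {z : G} :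
    z ∈ prog x y c ↔ ∃ i, i < c ∧ x + i • y = z := by
  unfold prog
  rw [Finset.mem_image]
  constructor
  · rintro ⟨i, hi, h⟩
    exact ⟨i, Finset.mem_range.1 hi, h⟩
  · rintro ⟨i, hi, h⟩
    exact ⟨i, Finset.mem_range.2 hi, h⟩

theorem prog_image {G : Type v} {H : Type w} [AddCommGroup G] [DecidableEq G] [AddCommGroup H]
    [DecidableEq H] (f : G →+ H) (x y : G) (c : ℕ) :
    (prog x y c).image f = prog (f x) (f y) c := by
  ext z
  rw [Finset.mem_image, mem_prog]
  constructor
  · rintro ⟨a, ha, rfl⟩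
    obtain ⟨i, hi, rfl⟩ := mem_prog.1 ha
    exact ⟨i, hi, by rw [map_add, map_nsmul]⟩
  · rintro ⟨i, hi, rfl⟩
    exact ⟨x + i • y, mem_prog.2 ⟨i, hi, rfl⟩, by rw [map_add, map_nsmul]⟩

theorem prog_card_le {G : Type v} [AddCommGroup G] [DecidableEq G] (x y : G) (c : ℕ) :
    (prog x y c).card ≤ c := by
  unfold prog
  exact Finset.card_image_le.trans (by rw [Finset.card_range])

theorem prog_inj {G : Type v} [AddCommGroup G] [DecidableEq G] {x y : G} {c : ℕ}
    (h : (prog x y c).card = c) {i j : ℕ} (hi : i < c) (hj : j < c)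
    (hij : x + i • y = x + j • y) : i = j := by
  unfold prog at h
  have h1 : ((Finset.range c).image (fun i : ℕ => x + i • y)).card = (Finset.range c).card := by
    rw [h, Finset.card_range]
  exact Finset.card_image_iff.1 h1 (Finset.mem_coe.2 (Finset.mem_range.2 hi))
    (Finset.mem_coe.2 (Finset.mem_range.2 hj)) hij

theorem card_of_inj {G : Type v} [AddCommGroup G] [DecidableEq G] {x y : G} {c : ℕ}
    (h : ∀ i j : ℕ, i < c → j < c → x + i • y = x + j • y → i = j) : (prog x y c).card = c := by
  unfold prog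
  rw [Finset.card_image_of_injOn, Finset.card_range]
  intro i hi j hj hij
  exact h i j (Finset.mem_range.1 (Finset.mem_coe.1 hi)) (Finset.mem_range.1 (Finset.mem_coe.1 hj))
    hij

/-- the case `y ∈ ⟨x⟩` -/
theorem caseA {G : Type u} [AddCommGroup G] [Fintype G] [DecidableEq G] (s : ℕ) (x y : G) (c : ℕ)
    (hc : (prog x y c).card = c) (hs : IsSumFree s (prog x y c))
    (hy : y ∈ AddSubgroup.zmultiples x) :
    ∃ d c' : ℕ, d ∣ AddMonoid.exponent G ∧ Adm1 s d c' ∧ c * d ≤ c' * Fintype.card G := by
  obtain ⟨k, rfl⟩ := AddSubgroup.mem_zmultiples_iff.1 hy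
  let f : ZMod (addOrderOf x) →+ G := ZMod.lift (addOrderOf x) ⟨zmultiplesHom G x, by
    rw [zmultiplesHom_apply, natCast_zsmul, addOrderOf_nsmul_eq_zero]⟩
  have hf : ∀ j : ℤ, f (j : ZMod (addOrderOf x)) = j • x := fun j => by
    change ZMod.lift (addOrderOf x) _ (j : ZMod (addOrderOf x)) = _
    rw [ZMod.lift_coe]
    rfl
  have hf1 : f 1 = x := by
    have := hf 1
    rwa [Int.cast_one, one_zsmul] at this
  have him : (prog (1 : ZMod (addOrderOf x)) (k : ZMod (addOrderOf x)) c).image f
      = prog x (k • x) c := by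
    rw [prog_image, hf1, hf]
  refine ⟨addOrderOf x, c, AddMonoid.addOrder_dvd_exponent x,
    ⟨(k : ZMod (addOrderOf x)), ?_, ?_⟩, ?_⟩
  · apply le_antisymm (prog_card_le _ _ _)
    calc c = ((prog (1 : ZMod (addOrderOf x)) (k : ZMod (addOrderOf x)) c).image f).card := by
          rw [him, hc]
      _ ≤ _ := Finset.card_image_le
  · apply transfer f s _ _ hs
    intro a ha
    rw [← him]
    exact Finset.mem_image_of_mem f ha
  · exact Nat.mul_le_mul_left c addOrderOf_le_card_univ

theorem red (n : ℕ) : ∀ (G : Type u) [AddCommGroup G] [Fintype G] [DecidableEq G] (s : ℕ)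
    (x y : G) (c : ℕ), Fintype.card G = n → 1 ≤ c → (prog x y c).card = c →
    IsSumFree s (prog x y c) →
    ∃ d c' : ℕ, d ∣ AddMonoid.exponent G ∧ Adm1 s d c' ∧ c * d ≤ c' * Fintype.card G := by
  induction n using Nat.strong_induction_on with
  | _ n ih =>
  intro G _ _ _ s x y c hn hc1 hc hs
  by_cases hy : y ∈ AddSubgroup.zmultiples x
  · exact caseA s x y c hc hs hy
  · -- the prime `p`
    set N := addOrderOf (y : G ⧸ AddSubgroup.zmultiples x) with hN
    have hN1 : N ≠ 1 := by
      intro h
      rw [hN, AddMonoid.addOrderOf_eq_one_iff, QuotientAddGroup.eq_zero_iff] at h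
      exact hy h
    have hp := Nat.minFac_prime hN1
    have hpN := Nat.minFac_dvd N
    set p := N.minFac with hpdef
    set L : AddSubgroup G := AddSubgroup.zmultiples x ⊔ AddSubgroup.zmultiples (p • y) with hL
    have hxL : x ∈ L := AddSubgroup.mem_sup_left (AddSubgroup.mem_zmultiples x)
    have hpL : p • y ∈ L := AddSubgroup.mem_sup_right (AddSubgroup.mem_zmultiples (p • y))
    have hyL : y ∉ L := by
      intro h
      rw [hL, AddSubgroup.mem_sup] at h
      obtain ⟨a, ha, b, hb, hab⟩ := h
      obtain ⟨j, rfl⟩ := AddSubgroup.mem_zmultiples_iff.1 hb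
      have h1 : (1 - j * p : ℤ) • y = a := by
        rw [sub_zsmul, one_zsmul, mul_zsmul, natCast_zsmul, ← sub_eq_add_neg, sub_eq_iff_eq_add]
        exact hab.symm
      have h2 : (1 - j * p : ℤ) • (y : G ⧸ AddSubgroup.zmultiples x) = 0 := by
        rw [← QuotientAddGroup.mk_zsmul, h1, QuotientAddGroup.eq_zero_iff]
        exact ha
      have h3 : (N : ℤ) ∣ 1 - j * p := addOrderOf_dvd_iff_zsmul_eq_zero.2 h2
      have h4 : (p : ℤ) ∣ 1 - j * p := dvd_trans (Int.natCast_dvd_natCast.2 hpN) h3
      have h5 : (p : ℤ) ∣ 1 := by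
        have := dvd_add h4 (Dvd.intro_left j rfl : (p : ℤ) ∣ j * p)
        rwa [sub_add_cancel] at this
      exact hp.one_lt.ne' (Nat.dvd_one.1 (by exact_mod_cast h5))
    have : Fact p.Prime := ⟨hp⟩
    have hord : addOrderOf (y : G ⧸ L) = p := by
      apply addOrderOf_eq_prime
      · rw [← QuotientAddGroup.mk_nsmul, QuotientAddGroup.eq_zero_iff]
        exact hpL
      · intro h
        rw [QuotientAddGroup.eq_zero_iff] at h
        exact hyL h
    have hidx : p ∣ Nat.card (G ⧸ L) := by
      have := addOrderOf_dvd_natCard (y : G ⧸ L)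
      rwa [hord] at this
    have : Finite (G ⧸ L) := inferInstance
    have hpos : 0 < Nat.card (G ⧸ L) := Nat.card_pos
    have hple : p ≤ Nat.card (G ⧸ L) := Nat.le_of_dvd hpos hidx
    haveI : Fintype L := Fintype.ofFinite L
    have hcardG : Fintype.card G = Nat.card (G ⧸ L) * Fintype.card L := by
      rw [← Nat.card_eq_fintype_card, ← Nat.card_eq_fintype_card (α := L)]
      exact AddSubgroup.card_eq_card_quotient_mul_card_addSubgroup L
    have hLpos : 0 < Fintype.card L := Fintype.card_pos
    have hpL' : p * Fintype.card L ≤ Fintype.card G := by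
      rw [hcardG]
      exact Nat.mul_le_mul_right _ hple
    have hlt : Fintype.card L < n := by
      rw [← hn]
      have := hp.two_le
      nlinarith
    -- the progression in `L`
    set c' := (c + p - 1) / p with hc'
    have hp0 := hp.pos
    have hc'1 : 1 ≤ c' := by
      rw [hc', Nat.le_div_iff_mul_le hp0]
      omega
    have hcc' : c ≤ p * c' := by
      have h1 := Nat.div_add_mod (c + p - 1) p
      have h2 := Nat.mod_lt (c + p - 1) hp0
      rw [← hc'] at h1
      omega
    have hip : ∀ i, i < c' → i * p < c := by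
      intro i hi
      have h1 : (i + 1) * p ≤ c + p - 1 := by
        have h2 : (i + 1) ≤ (c + p - 1) / p := hi
        exact (Nat.le_div_iff_mul_le hp0).1 h2
      rw [add_mul, one_mul] at h1
      omega
    let x' : L := ⟨x, hxL⟩
    let y' : L := ⟨p • y, hpL⟩
    have hval : ∀ i : ℕ, ((x' + i • y' : L) : G) = x + (i * p) • y := by
      intro i
      rw [AddSubgroup.coe_add, AddSubgroup.coe_nsmul, mul_nsmul']
    have hcard' : (prog x' y' c').card = c' := by
      apply card_of_inj
      intro i j hi hj hij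
      have h1 := congrArg (fun z : L => (z : G)) hij
      simp only [hval] at h1
      have h2 := prog_inj hc (hip i hi) (hip j hj) h1
      exact Nat.eq_of_mul_eq_mul_right hp0 h2
    have hsf : IsSumFree s (prog x' y' c') := by
      apply transfer L.subtype s _ _ hs
      intro a ha
      obtain ⟨i, hi, rfl⟩ := mem_prog.1 ha
      rw [mem_prog]
      exact ⟨i * p, hip i hi, (hval i).symm⟩
    obtain ⟨d, c'', h1, h2, h3⟩ := ih (Fintype.card L) hlt L s x' y' c' rfl hc'1 hcard' hsf
    refine ⟨d, c'', ?_, h2, ?_⟩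
    · exact h1.trans (AddMonoid.exponent_dvd_of_addMonoidHom L.subtype L.subtype_injective)
    · calc c * d ≤ p * c' * d := Nat.mul_le_mul_right d hcc'
        _ = p * (c' * d) := by rw [mul_assoc]
        _ ≤ p * (c'' * Fintype.card L) := Nat.mul_le_mul_left p h3
        _ = c'' * (p * Fintype.card L) := by ring
        _ ≤ c'' * Fintype.card G := Nat.mul_le_mul_left c'' hpL'

theorem t : G_RED.{u} := by
  intro G _ _ _ s A hne hs hAP
  obtain ⟨x, y, c, rfl, hc⟩ := hAP
  have hc1 : 1 ≤ c := by
    have := Finset.card_pos.2 hne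
    omega
  obtain ⟨d, c', h1, h2, h3⟩ := red (Fintype.card G) G s x y c rfl hc1 hc hs
  exact ⟨d, c', h1, h2, by rw [hc]; exact h3⟩

end Pool.Agent.Helper81.SV
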