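import Pool.Agent.Helper2.SV.GoalsP
import Pool.Agent.Helper2.SV.GoalsC

/-!
# Project SV, packet I013

`I0` is not `{0, 1, 3}`.
-/

set_option autoImplicit false

namespace Pool.Agent.Helper81.SV

open Pool.Agent.Helper2.SV

theorem goalI013 (hGL : G_GLUE) (hCOB : G_COB) (hA : G_I013A) : G_I013 := by
  intro V _ G w u d hcf hMF hW hWF hne hI
  obtain ⟨hY, h3, hS, hP, hR⟩ := hA V G w u d hcf hMF hW hWF hne hI
  obtain ⟨glue, gclq, -⟩ := hGL
  -- basic facts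
  have hE0 : (EE G u d 0).Nonempty := (hI 0).2 (Or.inl rfl)
  have hE1 : (EE G u d 1).Nonempty := (hI 1).2 (Or.inr (Or.inl rfl))
  have hcov : ∀ x, x ∈ V0 G u d ∨ x ∈ EE G u d 0 ∨ x ∈ EE G u d 1 ∨ x ∈ EE G u d 3 ∨
      x ∈ TT G u d := by
    intro x
    by_cases hx : x ∈ V0 G u d
    · exact Or.inl hx
    by_cases hx2 : ∃ j, x ∈ EE G u d j
    · obtain ⟨j, hj⟩ := hx2
      rcases (hI j).1 ⟨x, hj⟩ with rfl | rfl | rfl
      · exact Or.inr (Or.inl hj)
      · exact Or.inr (Or.inr (Or.inl hj))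
      · exact Or.inr (Or.inr (Or.inr (Or.inl hj)))
    · exact Or.inr (Or.inr (Or.inr (Or.inr ⟨hx, fun j hj => hx2 ⟨j, hj⟩⟩)))
  have hST : ∀ i, ∀ t ∈ SS G u d i, t ∈ TT G u d := fun i t ht => ht.1
  have hS0c : Clq G (SS G u d 0) := (hWF.sQ 0).mono Set.subset_union_right
  have hS3c : Clq G (SS G u d 3) := (hWF.sQ 3).mono Set.subset_union_right
  have hE3c : Clq G (EE G u d 3) := (hWF.sQ 3).mono Set.subset_union_left
  have hd1S0 : d 1 ∈ SS G u d 0 := (hWF.sd 0 hE0).2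
  have hd1S1 : d 1 ∈ SS G u d 1 := (hWF.sd 1 hE1).1
  -- the set `A'`
  obtain ⟨A', hA'sub, hA'perf, hA'meet⟩ := hMF.ih (V0 G u d ∪ EE G u d 3) (by
    intro h
    have hu : u ∈ V0 G u d ∪ EE G u d 3 := by rw [h]; trivial
    rcases hu with hu | hu
    · exact hWF.uT.1.1 hu
    · exact hWF.uT.1.2 3 hu)
  set R : Set V := {x | x ∈ TT G u d ∧ x ∉ SS G u d 0 ∧ x ∉ SS G u d 1 ∧ x ∉ SS G u d 3} with hRdef
  set P : Set V := {x | x ∈ SS G u d 0 ∧ x ∈ SS G u d 1} with hPdef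
  have hPc : Clq G P := hS0c.mono (fun x hx => hx.1)
  have p1 : Perf G (R ∪ P) := hCOB V G R P hR hPc
  have p2 : Perf G (R ∪ SS G u d 3) := hCOB V G R _ hR hS3c
  have p3 : Perf G ((R ∪ P) ∪ (R ∪ SS G u d 3)) := by
    refine glue V G _ _ p1 p2 (hR.mono ?_) ?_
    · rintro x ⟨hx1 | hx1, hx2 | hx2⟩
      · exact hx1
      · exact hx1
      · exact hx2
      · exact absurd hx1.1 (hS x hx2).1
    · rintro x (hx | hx) hx' y (hy | hy) hy'
      · exact absurd (Or.inl hx) hx'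
      · exact absurd (Or.inl hx) hx'
      · exact absurd (Or.inl hy) hy'
      · exact hP x hx.1 hx.2 y hy
  have hC1T : ∀ x ∈ (R ∪ P) ∪ (R ∪ SS G u d 3), x ∈ TT G u d := by
    rintro x ((hx | hx) | (hx | hx))
    · exact hx.1
    · exact hx.1.1
    · exact hx.1
    · exact hx.1
  have hQc : Clq G (SS G u d 3 ∪ (A' ∩ EE G u d 3)) := (hWF.sQ 3).mono (by
    rintro x (hx | hx)
    · exact Or.inr hx
    · exact Or.inl hx.2)
  have p4 : Perf G (((R ∪ P) ∪ (R ∪ SS G u d 3)) ∪ (SS G u d 3 ∪ (A' ∩ EE G u d 3))) := by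
    refine glue V G _ _ p3 (gclq V G _ hQc) (hQc.mono Set.inter_subset_right) ?_
    rintro x hx hx' y (hy | hy) hy' hxy
    · exact hy' (Or.inr (Or.inr hy))
    · exact hx' (Or.inl ⟨hC1T x hx, y, hy.2, hxy⟩)
  have p5 : Perf G ((((R ∪ P) ∪ (R ∪ SS G u d 3)) ∪ (SS G u d 3 ∪ (A' ∩ EE G u d 3))) ∪ A') := by
    refine glue V G _ _ p4 hA'perf (hE3c.mono ?_) ?_
    · rintro x ⟨hx1, hx2⟩
      have hxT : x ∈ TT G u d → x ∈ EE G u d 3 := by
        intro hT
        rcases hA'sub hx2 with h | h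
        · exact absurd h hT.1
        · exact h
      rcases hx1 with hx1 | hx1 | hx1
      · exact hxT (hC1T x hx1)
      · exact hxT hx1.1
      · exact hx1.2
    · intro x hx hx' y hy hy' hxy
      have hyV : y ∈ V0 G u d := by
        rcases hA'sub hy with h | h
        · exact h
        · exact absurd (Or.inr (Or.inr ⟨hy, h⟩)) hy'
      have hxT : x ∈ TT G u d := by
        rcases hx with hx | hx | hx
        · exact hC1T x hx
        · exact hx.1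
        · exact absurd hx.1 hx'
      exact hWF.v0T y hyV x hxT hxy.symm
  obtain ⟨K, hK, hKB, hKf⟩ := hMF.free _ p5
  have hKA' : ∀ x ∈ K, x ∉ A' := fun x hx h => hKB x hx (Or.inr h)
  have hKR : ∀ x ∈ K, x ∉ R := fun x hx h => hKB x hx (Or.inl (Or.inl (Or.inl (Or.inl h))))
  have hKP : ∀ x ∈ K, x ∉ P := fun x hx h => hKB x hx (Or.inl (Or.inl (Or.inl (Or.inr h))))
  have hKS3 : ∀ x ∈ K, x ∉ SS G u d 3 := fun x hx h => hKB x hx (Or.inl (Or.inr (Or.inl h)))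
  have hKT : ∀ x ∈ K, x ∈ TT G u d → (x ∈ SS G u d 0 ∨ x ∈ SS G u d 1) := by
    intro x hx hT
    by_contra hcon
    push Not at hcon
    exact hKR x hx ⟨hT, hcon.1, hcon.2, hKS3 x hx⟩
  have hd1K : d 1 ∉ K := fun h => hKP _ h ⟨hd1S0, hd1S1⟩
  have hmax := hMF.max K hK
  have hKc : ∀ x ∈ K, ∀ y ∈ K, x ≠ y → G.Adj x y := fun x hx y hy hxy =>
    hK.2.1 x (Finset.mem_coe.2 hx) y (Finset.mem_coe.2 hy) hxy
  -- no vertex of `K` is in `T`
  have hKnT : ∀ s ∈ K, s ∉ TT G u d := by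
    intro s hs hsT
    have hV0 : ∀ x ∈ K, x ∉ V0 G u d := by
      intro x hx hxV
      have hne : x ≠ s := by rintro rfl; exact hsT.1 hxV
      exact hWF.v0T x hxV s hsT (hKc x hx s hs hne)
    have hE3 : ∀ x ∈ K, x ∉ EE G u d 3 := by
      intro x hx hxE
      have hne : s ≠ x := by rintro rfl; exact hsT.2 3 hxE
      exact hKS3 s hs ⟨hsT, x, hxE, hKc s hs x hx hne⟩
    have hE : ∀ i, s ∉ SS G u d i → ∀ x ∈ K, x ∉ EE G u d i := by
      intro i hi x hx hxE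
      have hne : s ≠ x := by rintro rfl; exact hsT.2 i hxE
      exact hi ⟨hsT, x, hxE, hKc s hs x hx hne⟩
    -- `s` is not in both
    have hnb : s ∉ SS G u d 0 ∨ s ∉ SS G u d 1 := by
      by_contra hcon
      push Not at hcon
      exact hKP s hs hcon
    apply hmax (d 1)
    intro x hx
    have hxd : d 1 ≠ x := by rintro rfl; exact hd1K hx
    have hq0 : x ∈ EE G u d 0 ∪ SS G u d 0 → G.Adj (d 1) x := fun h =>
      hWF.sQ 0 (d 1) (Or.inr hd1S0) x h hxd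
    have hq1 : x ∈ EE G u d 1 ∪ SS G u d 1 → G.Adj (d 1) x := fun h =>
      hWF.sQ 1 (d 1) (Or.inr hd1S1) x h hxd
    rcases hcov x with h | h | h | h | h
    · exact absurd h (hV0 x hx)
    · exact hq0 (Or.inl h)
    · exact hq1 (Or.inl h)
    · exact absurd h (hE3 x hx)
    · rcases hKT x hx h with h | h
      · exact hq0 (Or.inr h)
      · exact hq1 (Or.inr h)
  -- `K` meets `EE 0 ∪ EE 1`
  have hKg : ∃ g ∈ K, g ∈ EE G u d 0 ∪ EE G u d 1 := by
    by_contra hcon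
    push Not at hcon
    obtain ⟨x, hx, hxA⟩ := hA'meet K hK (by
      intro x hx
      have hx := Finset.mem_coe.1 hx
      rcases hcov x with h | h | h | h | h
      · exact Or.inl h
      · exact absurd (Or.inl h) (hcon x hx)
      · exact absurd (Or.inr h) (hcon x hx)
      · exact Or.inr h
      · exact absurd h (hKnT x hx))
    exact hKA' x hx hxA
  obtain ⟨g, hgK, hgE⟩ := hKg
  -- the clique `K'`
  set Kp : Set V := {x | x ∈ EE G u d 0 ∪ EE G u d 1 ∨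
    ((x ∈ V0 G u d ∨ x ∈ EE G u d 3) ∧ ∃ g' ∈ EE G u d 0 ∪ EE G u d 1, G.Adj x g')} with hKpdef
  have hEd1 : ∀ x ∈ EE G u d 0 ∪ EE G u d 1, x ∈ Mn G u ∧ G.Adj x (d 1) := by
    rintro x (hx | hx)
    · exact ⟨hx.1.1, (hx.1.2 1).2 (Or.inr rfl)⟩
    · exact ⟨hx.1.1, (hx.1.2 1).2 (Or.inl rfl)⟩
  obtain ⟨g0, hg0⟩ := hE0
  have hg0' : g0 ∈ EE G u d 0 ∪ EE G u d 1 := Or.inl hg0
  have hKpc : Clq G Kp := by
    have key : ∀ x ∈ Kp, ∀ y ∈ EE G u d 0 ∪ EE G u d 1, x ≠ y → G.Adj x y := by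
      rintro x (hx | ⟨hx | hx, g', hg', hxg'⟩) y hy hxy
      · exact hWF.common x y 1 (hEd1 x hx).1 (hEd1 y hy).1 hxy (hEd1 x hx).2 (hEd1 y hy).2
      · exact hY x hx g' hg' hxg' y hy
      · exact (h3 x hx g' hg' hxg').1 y hy
    intro x hx y hy hxy
    rcases hx with hx | ⟨hx, g1, hg1, hxg1⟩
    · exact (key y hy x hx hxy.symm).symm
    rcases hy with hy | ⟨hy, g2, hg2, hyg2⟩
    · exact key x (Or.inr ⟨hx, g1, hg1, hxg1⟩) y hy hxy
    rcases hx with hx | hx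
    · rcases hy with hy | hy
      · exact hWF.v0C 0 g0 hg0.1 x hx y hy (hY x hx g1 hg1 hxg1 g0 hg0')
          (hY y hy g2 hg2 hyg2 g0 hg0') hxy
      · exact (h3 y hy g2 hg2 hyg2).2 x hx g1 hg1 hxg1
    · rcases hy with hy | hy
      · exact ((h3 x hx g1 hg1 hxg1).2 y hy g2 hg2 hyg2).symm
      · exact hE3c x hx y hy hxy
  have hKKp : ∀ x ∈ K, x ∈ Kp := by
    intro x hx
    by_cases hxg : x = g
    · subst hxg
      exact Or.inl hgE
    have hadj := hKc x hx g hgK hxg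
    rcases hcov x with h | h | h | h | h
    · exact Or.inr ⟨Or.inl h, g, hgE, hadj⟩
    · exact Or.inl (Or.inl h)
    · exact Or.inl (Or.inr h)
    · exact Or.inr ⟨Or.inr h, g, hgE, hadj⟩
    · exact absurd h (hKnT x hx)
  have hKpK : ∀ z ∈ Kp, z ∈ K := by
    intro z hz
    by_contra hzK
    apply hmax z
    intro x hx
    exact hKpc z hz x (hKKp x hx) (by rintro rfl; exact hzK hx)
  -- `g0` is free
  apply hKf g0 (hKpK g0 (Or.inl hg0'))
  apply hS0c.mono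
  rintro x ⟨hgx, hxK⟩
  rcases hcov x with h | h | h | h | h
  · exact absurd (hKpK x (Or.inr ⟨Or.inl h, g0, hg0', hgx.symm⟩)) hxK
  · exact absurd (hKpK x (Or.inl (Or.inl h))) hxK
  · exact absurd (hKpK x (Or.inl (Or.inr h))) hxK
  · exact absurd (hKpK x (Or.inr ⟨Or.inr h, g0, hg0', hgx.symm⟩)) hxK
  · exact ⟨h, g0, hg0, hgx.symm⟩

end Pool.Agent.Helper81.SV
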